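import Pool.Agent.Helper94.LK.Spec

/-! MP_e4073d_mp, part KB : Schur bounds for the straight line and for curves. -/

open MeasureTheory Filter Topology Set
open scoped ENNReal

namespace Pool.Agent.Helper53.LK
open Pool.Agent.Helper94.LK

theorem lint_kap (h2 : S_K2) {c : ℝ} (hc : 0 < c) (s : ℝ) (h1 : S_K1) :
    ∫⁻ s', ENNReal.ofReal (kap (c * |s - s'|)) = ENNReal.ofReal (1 / (2 * c)) := by
  have hg : ∀ u : ℝ, kap (c * |u|) = (fun u : ℝ => kap |u|) (c * u) := by
    intro u
    simp only [abs_mul, abs_of_pos hc]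
  have hint : Integrable (fun u : ℝ => (fun u : ℝ => kap |u|) (c * u)) :=
    h2.int0.comp_mul_left' hc.ne'
  calc ∫⁻ s', ENNReal.ofReal (kap (c * |s - s'|))
      = ∫⁻ s', (fun u : ℝ => ENNReal.ofReal ((fun u : ℝ => kap |u|) (c * u))) (s - s') := by
        simp only [hg]
    _ = ∫⁻ u, ENNReal.ofReal ((fun u : ℝ => kap |u|) (c * u)) :=
        lintegral_sub_left_eq_self (fun u : ℝ => ENNReal.ofReal ((fun u : ℝ => kap |u|) (c * u))) s
    _ = ENNReal.ofReal (∫ u, (fun u : ℝ => kap |u|) (c * u)) :=
        (ofReal_integral_eq_lintegral_ofReal hint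
          (Eventually.of_forall fun u => h1.nonneg _)).symm
    _ = ENNReal.ofReal (1 / (2 * c)) := by
        rw [Measure.integral_comp_mul_left (fun u : ℝ => kap |u|) c, h2.val0, abs_of_pos
          (inv_pos.2 hc)]
        congr 1
        simp only [smul_eq_mul]
        field_simp

theorem kb_thm (h1 : S_K1) (h2 : S_K2) (hs : S_SCH) : S_KB := by
  refine ⟨?_, ?_⟩
  · refine hs GS (1 / 2) (by norm_num) ?_ (fun s s' => h1.nonneg _) ?_ ?_
    · exact h1.meas.comp ((measurable_fst.sub measurable_snd).abs)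
    · intro s s'
      unfold GS; rw [abs_sub_comm]
    · intro s
      have := lint_kap h2 one_pos s h1
      simp only [one_mul, mul_one] at this
      exact this.le
  · intro γ c hc hγ hl
    refine hs (GC γ) (1 / (2 * c)) (by positivity) ?_ (fun s s' => h1.nonneg _) ?_ ?_
    · exact h1.meas.comp
        (((hγ.comp continuous_fst).sub (hγ.comp continuous_snd)).norm.measurable)
    · intro s s'
      unfold GC; rw [norm_sub_rev]
    · intro s
      rw [← lint_kap h2 hc s h1]
      refine lintegral_mono_ae ?_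
      have hne : ∀ᵐ s' : ℝ, s' ≠ s := by
        rw [ae_iff]; simp
      filter_upwards [hne] with s' hs'
      refine ENNReal.ofReal_le_ofReal ?_
      have hpos : 0 < c * |s - s'| := mul_pos hc (abs_pos.2 (sub_ne_zero.2 (Ne.symm hs')))
      exact h1.anti.antitoneOn hpos (lt_of_lt_of_le hpos (hl s s')) (hl s s')

end Pool.Agent.Helper53.LK
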