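import Pool.Agent.Helper94.LK.Spec

/-! MP_e4073d_mp, part SCH : Schur test. -/

open MeasureTheory Filter Topology Set
open scoped ENNReal

namespace Pool.Agent.Helper53.LK
open Pool.Agent.Helper94.LK

/-- Cauchy-Schwarz for real functions -/
theorem cs {α : Type*} [MeasurableSpace α] {μ : Measure α} {u v : α → ℝ} (hu : MemLp u 2 μ)
    (hv : MemLp v 2 μ) : |∫ x, u x * v x ∂μ| ≤ √(∫ x, u x ^ 2 ∂μ) * √(∫ x, v x ^ 2 ∂μ) := by
  have h2 : ENNReal.ofReal (2 : ℝ) = 2 := by norm_num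
  have h := integral_mul_norm_le_Lp_mul_Lq (μ := μ) (p := 2) (q := 2) (f := u) (g := v)
    Real.HolderConjugate.two_two (by rw [h2]; exact hu) (by rw [h2]; exact hv)
  calc |∫ x, u x * v x ∂μ| ≤ ∫ x, |u x * v x| ∂μ := abs_integral_le_integral_abs
    _ = ∫ x, ‖u x‖ * ‖v x‖ ∂μ := by
        simp only [abs_mul, Real.norm_eq_abs]
    _ ≤ _ := h
    _ = _ := by
        rw [Real.sqrt_eq_rpow, Real.sqrt_eq_rpow]
        norm_num

theorem lint_fst {G : ℝ → ℝ → ℝ} {M : ℝ} (hM : 0 ≤ M) (hG : Measurable (Function.uncurry G))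
    (hb : ∀ s, ∫⁻ s', ENNReal.ofReal (G s s') ≤ ENNReal.ofReal M)
    {f : ℝ → ℝ} (hf : MemLp f 2 volume) :
    ∫⁻ z : ℝ × ℝ, ENNReal.ofReal (G z.1 z.2 * f z.1 ^ 2) ≤ ENNReal.ofReal (M * N f) := by
  have hGz : Measurable (fun z : ℝ × ℝ => G z.1 z.2) := hG
  have hfm : AEStronglyMeasurable (fun z : ℝ × ℝ => f z.1) (volume.prod volume) :=
    hf.1.comp_fst
  have hm : AEMeasurable (fun z : ℝ × ℝ => ENNReal.ofReal (G z.1 z.2 * f z.1 ^ 2))
      (volume.prod volume) :=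
    ((hGz.aemeasurable).mul (hfm.aemeasurable.pow_const 2)).ennreal_ofReal
  rw [Measure.volume_eq_prod, lintegral_prod _ hm]
  calc ∫⁻ s, ∫⁻ s', ENNReal.ofReal (G s s' * f s ^ 2)
      = ∫⁻ s, ENNReal.ofReal (f s ^ 2) * ∫⁻ s', ENNReal.ofReal (G s s') := by
        refine lintegral_congr fun s => ?_
        rw [← lintegral_const_mul]
        · refine lintegral_congr fun s' => ?_
          rw [← ENNReal.ofReal_mul (sq_nonneg _), mul_comm]
        · exact (hGz.comp measurable_prodMk_left).ennreal_ofReal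
    _ ≤ ∫⁻ s, ENNReal.ofReal (f s ^ 2) * ENNReal.ofReal M :=
        lintegral_mono fun s => by gcongr; exact hb s
    _ = ENNReal.ofReal (M * N f) := by
        rw [lintegral_mul_const'' _ ((hf.1.aemeasurable.pow_const 2).ennreal_ofReal),
          ← ofReal_integral_eq_lintegral_ofReal hf.integrable_sq
            (Eventually.of_forall fun s => sq_nonneg _), mul_comm, ENNReal.ofReal_mul hM]
        rfl

theorem memLp_fst {G : ℝ → ℝ → ℝ} {M : ℝ} (hM : 0 ≤ M) (hG : Measurable (Function.uncurry G))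
    (h0 : ∀ s s', 0 ≤ G s s') (hb : ∀ s, ∫⁻ s', ENNReal.ofReal (G s s') ≤ ENNReal.ofReal M)
    {f : ℝ → ℝ} (hf : MemLp f 2 volume) :
    MemLp (fun z : ℝ × ℝ => √(G z.1 z.2) * f z.1) 2 volume ∧
      ∫ z : ℝ × ℝ, (√(G z.1 z.2) * f z.1) ^ 2 ≤ M * N f := by
  have hGz : Measurable (fun z : ℝ × ℝ => G z.1 z.2) := hG
  have hfm : AEStronglyMeasurable (fun z : ℝ × ℝ => f z.1) (volume : Measure (ℝ × ℝ)) := by
    rw [Measure.volume_eq_prod]; exact hf.1.comp_fst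
  have hN : 0 ≤ M * N f := mul_nonneg hM (integral_nonneg fun s => sq_nonneg _)
  have hm : AEStronglyMeasurable (fun z : ℝ × ℝ => √(G z.1 z.2) * f z.1)
      (volume : Measure (ℝ × ℝ)) := (hGz.sqrt.aestronglyMeasurable).mul hfm
  have he : (fun z : ℝ × ℝ => (√(G z.1 z.2) * f z.1) ^ 2) =
      fun z : ℝ × ℝ => G z.1 z.2 * f z.1 ^ 2 := by
    funext z
    rw [mul_pow, Real.sq_sqrt (h0 _ _)]
  have hl := lint_fst hM hG hb hf
  have hint : Integrable (fun z : ℝ × ℝ => G z.1 z.2 * f z.1 ^ 2) := by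
    refine ⟨?_, ?_⟩
    · rw [← he]; exact hm.pow 2
    · rw [hasFiniteIntegral_iff_ofReal
        (Eventually.of_forall fun z => mul_nonneg (h0 _ _) (sq_nonneg _))]
      exact lt_of_le_of_lt hl ENNReal.ofReal_lt_top
  refine ⟨(memLp_two_iff_integrable_sq hm).2 (by rw [he]; exact hint), ?_⟩
  rw [he, integral_eq_lintegral_of_nonneg_ae
    (Eventually.of_forall fun z => mul_nonneg (h0 _ _) (sq_nonneg _)) hint.1]
  exact ENNReal.toReal_le_of_le_ofReal hN hl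

theorem memLp_snd {G : ℝ → ℝ → ℝ} {M : ℝ} (hM : 0 ≤ M) (hG : Measurable (Function.uncurry G))
    (h0 : ∀ s s', 0 ≤ G s s') (hsym : ∀ s s', G s s' = G s' s)
    (hb : ∀ s, ∫⁻ s', ENNReal.ofReal (G s s') ≤ ENNReal.ofReal M)
    {f : ℝ → ℝ} (hf : MemLp f 2 volume) :
    MemLp (fun z : ℝ × ℝ => √(G z.1 z.2) * f z.2) 2 volume ∧
      ∫ z : ℝ × ℝ, (√(G z.1 z.2) * f z.2) ^ 2 ≤ M * N f := by
  obtain ⟨h1, h2⟩ := memLp_fst hM hG h0 hb hf
  have hsw : MeasurePreserving (Prod.swap : ℝ × ℝ → ℝ × ℝ) volume volume := by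
    rw [Measure.volume_eq_prod]; exact Measure.measurePreserving_swap
  have he : (fun z : ℝ × ℝ => √(G z.1 z.2) * f z.2) =
      (fun z : ℝ × ℝ => √(G z.1 z.2) * f z.1) ∘ Prod.swap := by
    funext z
    simp only [Function.comp, Prod.fst_swap, Prod.snd_swap]
    rw [hsym]
  constructor
  · rw [he]; exact h1.comp_measurePreserving hsw
  · calc ∫ z : ℝ × ℝ, (√(G z.1 z.2) * f z.2) ^ 2
        = ∫ z : ℝ × ℝ, (fun w : ℝ × ℝ => (√(G w.1 w.2) * f w.1) ^ 2) (Prod.swap z) := by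
          refine integral_congr_ae (Eventually.of_forall fun z => ?_)
          simp only [Prod.fst_swap, Prod.snd_swap]
          rw [hsym]
      _ = ∫ z : ℝ × ℝ, (√(G z.1 z.2) * f z.1) ^ 2 := by
          exact hsw.integral_comp (MeasurableEquiv.prodComm (α := ℝ) (β := ℝ)).measurableEmbedding
            (fun w : ℝ × ℝ => (√(G w.1 w.2) * f w.1) ^ 2)
      _ ≤ _ := h2

theorem sch_thm : S_SCH := by
  intro G M hM hG h0 hsym hb
  have hkey : ∀ f h : ℝ → ℝ, (fun z : ℝ × ℝ => G z.1 z.2 * (f z.1 * h z.2)) =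
      fun z : ℝ × ℝ => (√(G z.1 z.2) * f z.1) * (√(G z.1 z.2) * h z.2) := by
    intro f h
    funext z
    have : G z.1 z.2 = √(G z.1 z.2) * √(G z.1 z.2) := (Real.mul_self_sqrt (h0 _ _)).symm
    calc G z.1 z.2 * (f z.1 * h z.2) = (√(G z.1 z.2) * √(G z.1 z.2)) * (f z.1 * h z.2) := by
          rw [← this]
      _ = _ := by ring
  refine ⟨hM, hG, ?_, ?_⟩
  · intro f h hf hh
    rw [hkey]
    exact (memLp_fst hM hG h0 hb hf).1.integrable_mul (memLp_snd hM hG h0 hsym hb hh).1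
  · intro f h hf hh
    obtain ⟨a1, a2⟩ := memLp_fst hM hG h0 hb hf
    obtain ⟨b1, b2⟩ := memLp_snd hM hG h0 hsym hb hh
    have hcs := cs a1 b1
    have hB : Bil G f h = ∫ z : ℝ × ℝ, (√(G z.1 z.2) * f z.1) * (√(G z.1 z.2) * h z.2) := by
      unfold Bil; rw [hkey]
    rw [hB]
    calc _ ≤ _ := hcs
      _ ≤ √(M * N f) * √(M * N h) := by gcongr
      _ = M * √(N f) * √(N h) := by
        rw [Real.sqrt_mul hM, Real.sqrt_mul hM]
        nth_rw 3 [← Real.mul_self_sqrt hM]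
        ring

end Pool.Agent.Helper53.LK
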