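import Pool.Agent.Helper94.LK.Spec

/-! MP_e4073d_mp, part TENT : tent functions for the straight kernel. -/

open MeasureTheory Filter Topology Set
open scoped ENNReal

namespace Pool.Agent.Helper53.LK
open Pool.Agent.Helper94.LK

theorem tent_cont (m w : ℝ) : Continuous (tent m w) := by
  unfold tent; fun_prop

theorem tent_zero {m w s : ℝ} (hw : 0 < w) (h : s ∉ Icc (m - w) (m + w)) : tent m w s = 0 := by
  unfold tent
  apply max_eq_left
  have : w < |s - m| := by
    by_contra hh
    rw [not_lt, abs_le] at hh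
    exact h ⟨by linarith [hh.1], by linarith [hh.2]⟩
  have : 1 < |s - m| / w := by rwa [lt_div_iff₀ hw, one_mul]
  linarith

theorem tent_mem (m w : ℝ) (hw : 0 < w) : MemLp (tent m w) 2 volume :=
  (tent_cont m w).memLp_of_hasCompactSupport
    (HasCompactSupport.intro (isCompact_Icc (a := m - w) (b := m + w)) fun _ h => tent_zero hw h)

theorem tent_nrm (m w : ℝ) (hw : 0 < w) : N (tent m w) = 2 * w / 3 := by
  have e1 : N (tent m w) = ∫ s : ℝ, (fun x : ℝ => (fun y : ℝ => (max 0 (1 - y)) ^ 2) |x|)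
      ((s - m) / w) := by
    unfold N tent
    refine integral_congr_ae (Eventually.of_forall fun s => ?_)
    simp only [abs_div, abs_of_pos hw]
  have e2 := integral_sub_right_eq_self (μ := (volume : Measure ℝ))
    (fun s : ℝ => (fun x : ℝ => (fun y : ℝ => (max 0 (1 - y)) ^ 2) |x|) (s / w)) m
  have e3 := Measure.integral_comp_div (fun x : ℝ => (fun y : ℝ => (max 0 (1 - y)) ^ 2) |x|) w
  have e4 := integral_comp_abs (f := fun y : ℝ => (max 0 (1 - y)) ^ 2)
  have e5 : ∫ x in Ioi (0 : ℝ), (fun y : ℝ => (max 0 (1 - y)) ^ 2) x = 1 / 3 := by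
    have h1 : ∫ x in Ioi (0 : ℝ), (fun y : ℝ => (max 0 (1 - y)) ^ 2) x
        = ∫ x in Ioc (0 : ℝ) 1, (fun y : ℝ => (max 0 (1 - y)) ^ 2) x := by
      refine setIntegral_eq_of_subset_of_forall_sdiff_eq_zero measurableSet_Ioi
        (fun x hx => hx.1) ?_
      intro x hx
      have : 1 < x := by
        by_contra hh
        exact hx.2 ⟨hx.1, not_lt.1 hh⟩
      show (max 0 (1 - x)) ^ 2 = 0
      rw [max_eq_left (by linarith)]
      norm_num
    rw [h1, ← intervalIntegral.integral_of_le zero_le_one]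
    have h2 : ∫ x in (0 : ℝ)..1, (fun y : ℝ => (max 0 (1 - y)) ^ 2) x
        = ∫ x in (0 : ℝ)..1, (1 - x) ^ 2 := by
      refine intervalIntegral.integral_congr fun x hx => ?_
      rw [uIcc_of_le zero_le_one] at hx
      show (max 0 (1 - x)) ^ 2 = (1 - x) ^ 2
      rw [max_eq_right (by linarith [hx.2])]
    rw [h2]
    have h3 := intervalIntegral.integral_comp_sub_left (a := 0) (b := 1)
      (fun x : ℝ => x ^ 2) (1 : ℝ)
    rw [h3]
    norm_num
  rw [e1]
  rw [e5] at e4
  rw [e4] at e3
  rw [e3] at e2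
  rw [e2, abs_of_pos hw, smul_eq_mul]
  ring

theorem tent_diff {m w : ℝ} (hw : 0 < w) (u s : ℝ) :
    (tent m w (s + u) - tent m w s) ^ 2 ≤
      (Icc (m - w) (m + w)).indicator (fun _ => (u / w) ^ 2) s +
      (Icc (m - w) (m + w)).indicator (fun _ => (u / w) ^ 2) (s + u) := by
  have hle : (tent m w (s + u) - tent m w s) ^ 2 ≤ (u / w) ^ 2 := by
    rw [← sq_abs]
    rw [← sq_abs (u / w)]
    refine pow_le_pow_left₀ (abs_nonneg _) ?_ 2
    have h1 : |tent m w (s + u) - tent m w s| ≤
        |(1 - |s + u - m| / w) - (1 - |s - m| / w)| := by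
      unfold tent
      rw [max_comm 0 (1 - |s + u - m| / w), max_comm 0 (1 - |s - m| / w)]
      exact abs_max_sub_max_le_abs _ _ _
    refine h1.trans ?_
    have h2 : (1 - |s + u - m| / w) - (1 - |s - m| / w) = (|s - m| - |s + u - m|) / w := by
      ring
    rw [h2, abs_div, abs_div]
    refine div_le_div_of_nonneg_right ?_ (abs_nonneg w)
    refine (abs_abs_sub_abs_le_abs_sub (s - m) (s + u - m)).trans ?_
    have : s - m - (s + u - m) = -u := by ring
    rw [this, abs_neg]
  by_cases h1 : s ∈ Icc (m - w) (m + w)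
  · rw [indicator_of_mem h1]
    have : 0 ≤ (Icc (m - w) (m + w)).indicator (fun _ => (u / w) ^ 2) (s + u) :=
      indicator_nonneg (fun _ _ => sq_nonneg _) _
    linarith
  · by_cases h2 : s + u ∈ Icc (m - w) (m + w)
    · rw [indicator_of_mem h2]
      have : 0 ≤ (Icc (m - w) (m + w)).indicator (fun _ => (u / w) ^ 2) s :=
        indicator_nonneg (fun _ _ => sq_nonneg _) _
      linarith
    · rw [tent_zero hw h1, tent_zero hw h2, indicator_of_notMem h1, indicator_of_notMem h2]
      norm_num

theorem tent_corr (m w : ℝ) (hw : 0 < w) (u : ℝ) :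
    N (tent m w) - 2 * u ^ 2 / w ≤ ∫ s, tent m w s * tent m w (s + u) := by
  set f := tent m w with hf
  have hm := tent_mem m w hw
  rw [← hf] at hm
  have hsq : Integrable (fun s => f s ^ 2) := hm.integrable_sq
  have hsq' : Integrable (fun s => f (s + u) ^ 2) := hsq.comp_add_right u
  have hmu : MemLp (fun s => f (s + u)) 2 volume :=
    hm.comp_measurePreserving (measurePreserving_add_right volume u)
  have hmul : Integrable (fun s => f s * f (s + u)) := hm.integrable_mul hmu
  have hN' : ∫ s, f (s + u) ^ 2 = N f :=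
    integral_add_right_eq_self (μ := (volume : Measure ℝ)) (fun s => f s ^ 2) u
  have hD : ∫ s, (f (s + u) - f s) ^ 2 = 2 * N f - 2 * ∫ s, f s * f (s + u) := by
    have e1 : (fun s => (f (s + u) - f s) ^ 2) =
        fun s => (f (s + u) ^ 2 + f s ^ 2) - 2 * (f s * f (s + u)) := by
      funext s; ring
    have hadd : Integrable (fun s => f (s + u) ^ 2 + f s ^ 2) := hsq'.add hsq
    rw [e1, integral_sub hadd (hmul.const_mul 2), integral_add hsq' hsq, hN',
      integral_const_mul]
    unfold N; ring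
  have hind : Integrable ((Icc (m - w) (m + w)).indicator (fun _ : ℝ => (u / w) ^ 2)) :=
    (integrable_indicator_iff measurableSet_Icc).2 (integrableOn_const (by
      rw [Real.volume_Icc]; exact ENNReal.ofReal_ne_top))
  have hindv : ∫ s, (Icc (m - w) (m + w)).indicator (fun _ : ℝ => (u / w) ^ 2) s
      = 2 * u ^ 2 / w := by
    rw [integral_indicator measurableSet_Icc, setIntegral_const]
    simp only [Real.volume_real_Icc, smul_eq_mul]
    rw [max_eq_left (by linarith)]
    field_simp
    ring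
  have hle : ∫ s, (f (s + u) - f s) ^ 2 ≤
      ∫ s, ((Icc (m - w) (m + w)).indicator (fun _ : ℝ => (u / w) ^ 2) s +
        (Icc (m - w) (m + w)).indicator (fun _ : ℝ => (u / w) ^ 2) (s + u)) := by
    refine integral_mono_of_nonneg (Eventually.of_forall fun s => sq_nonneg _)
      (hind.add (hind.comp_add_right u)) (Eventually.of_forall fun s => tent_diff hw u s)
  rw [integral_add hind (hind.comp_add_right u), hindv,
    integral_add_right_eq_self (μ := (volume : Measure ℝ))
      ((Icc (m - w) (m + w)).indicator (fun _ : ℝ => (u / w) ^ 2)) u, hindv, hD] at hle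
  have e : 2 * u ^ 2 / w + 2 * u ^ 2 / w = 2 * (2 * u ^ 2 / w) := by ring
  rw [e] at hle
  linarith

theorem bil_GS_eq (kS : KerBdd GS (1 / 2)) {f : ℝ → ℝ} (hf : MemLp f 2 volume) :
    Integrable (fun u : ℝ => ∫ s, kap |u| * (f s * f (s + u))) ∧
    Bil GS f f = ∫ u : ℝ, ∫ s, kap |u| * (f s * f (s + u)) := by
  have hint := kS.int f f hf hf
  have hmp : MeasurePreserving (fun z : ℝ × ℝ => (z.1, z.1 + z.2)) volume volume := by
    rw [Measure.volume_eq_prod]; exact measurePreserving_prod_add volume volume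
  have hemb : MeasurableEmbedding (fun z : ℝ × ℝ => (z.1, z.1 + z.2)) :=
    (MeasurableEquiv.shearAddRight ℝ).measurableEmbedding
  have he : (fun z : ℝ × ℝ => GS z.1 z.2 * (f z.1 * f z.2)) ∘
      (fun z : ℝ × ℝ => (z.1, z.1 + z.2)) =
      fun z : ℝ × ℝ => kap |z.2| * (f z.1 * f (z.1 + z.2)) := by
    funext z
    simp only [Function.comp, GS]
    congr 2
    have : z.1 - (z.1 + z.2) = -z.2 := by ring
    rw [this, abs_neg]
  have hint2 : Integrable (fun z : ℝ × ℝ => kap |z.2| * (f z.1 * f (z.1 + z.2)))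
      (volume.prod volume) := by
    rw [← he, ← Measure.volume_eq_prod]
    exact (hmp.integrable_comp_emb hemb).2 hint
  refine ⟨hint2.integral_prod_right, ?_⟩
  have h1 : Bil GS f f = ∫ z : ℝ × ℝ, kap |z.2| * (f z.1 * f (z.1 + z.2)) := by
    rw [← he]
    exact (hmp.integral_comp hemb (fun z : ℝ × ℝ => GS z.1 z.2 * (f z.1 * f z.2))).symm
  rw [h1, Measure.volume_eq_prod, integral_prod_symm _ hint2]

theorem tent_thm (h1 : S_K1) (h2 : S_K2) (hk : S_KB) : S_TENT := by
  refine ⟨tent_mem, tent_nrm, ?_, ?_⟩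
  · intro m w hw
    obtain ⟨hi, he⟩ := bil_GS_eq hk.kS (tent_mem m w hw)
    rw [he]
    have hc : 1 / 2 * N (tent m w) - 1 / w =
        ∫ u : ℝ, (N (tent m w) * kap |u| - 2 / w * (u ^ 2 * kap |u|)) := by
      rw [integral_sub (h2.int0.const_mul _) (h2.int2.const_mul _), integral_const_mul,
        integral_const_mul, h2.val0, h2.val2]
      ring
    rw [hc]
    refine integral_mono ((h2.int0.const_mul _).sub (h2.int2.const_mul _)) hi fun u => ?_
    simp only
    rw [integral_const_mul]
    have hA := tent_corr m w hw u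
    have hk0 := h1.nonneg |u|
    calc N (tent m w) * kap |u| - 2 / w * (u ^ 2 * kap |u|)
        = kap |u| * (N (tent m w) - 2 * u ^ 2 / w) := by ring
      _ ≤ _ := mul_le_mul_of_nonneg_left hA hk0
  · intro f hf
    have := hk.kS.bd f f hf hf
    have hN : 0 ≤ N f := integral_nonneg fun s => sq_nonneg _
    rw [mul_assoc, Real.mul_self_sqrt hN] at this
    exact (le_abs_self _).trans this

end Pool.Agent.Helper53.LK
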